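import Pool.Agent.X297.BT.Ab

/-!
# The Tate conjecture for all powers of a potentially CM abelian variety over a number field

Let `A` be an abelian variety of dimension `g` over a number field which has complex multiplication
over a finite extension, simple or not. If the Tate conjecture (in all codimensions, over all finite
extensions) holds for `A, A², …, A^N` with `N = max 2 (g ^ (g + 2))`, then it holds for all powers of
`A`.

More generally let `Y` be any smooth projective variety over a number field whose `ℓ`-adic cohomology
algebra (with coefficients `ℚ̄_ℓ`) is generated by `f` homogeneous eigenvectors of the Galois group of a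
finite extension, with Hodge-Tate characters whose weights `a` in degree `i` satisfy
`|2 a - i| ≤ c`. Then the same holds with `N = f ^ 2 (f max(c, 1)) ^ f`; if the Galois group
of a finite extension acts diagonally one can take for `f` the total Betti number and `c = dim Y`.
-/

open CategoryTheory AlgebraicGeometry

universe u v w

namespace Pool.Agent.Results.MP_90d181_ag.BoundedPowersCM

open Pool.Agent.H914 Pool.Agent.H914.VarClass Pool.Agent.H914.VarClass.Obj
  Pool.Agent.H914.WeilCohomology Pool.Agent.X297.TIL Pool.Agent.X297.GT Pool.Agent.X297.BT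

theorem result {k : Type u} [Field k] {𝒱 : VarClass k} {ops : CycleOps 𝒱}
    (W : WeilCohomology.{u, v} ops) (Y : 𝒱.Obj) {Γ : Type w} [Group Γ]
    (χ : Γ →* W.Kˣ) (G : GaloisPowers W Y Γ χ) (Δ : Subgroup Γ) (hΔ : Δ.FiniteIndex)
    {S : Type} [Nonempty S] (H : WeightSystem (χ.comp Δ.subtype) S) :
    (∀ g, IsCMAbelian (A := W.H Y) H (W.gr Y) (G.act 0) g →
      (∀ m < max 2 (g ^ (g + 2)), G.TateFor m) → ∀ n, G.TateFor n) ∧
    (∀ f c, IsGeneratedBy (A := W.H Y) H (W.gr Y) (G.act 0) f c →
      (∀ m < powersBound f c, G.TateFor m) → ∀ n, G.TateFor n) ∧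
    (IsToric G Δ → HasHodgeTateWeights (A := W.H Y) H (W.gr Y) (G.act 0) Y.dim →
      IsGeneratedBy (A := W.H Y) H (W.gr Y) (G.act 0) (Module.finrank W.K (W.H Y)) Y.dim) :=
  ⟨fun _ h hT n => main_ab hΔ h hT n, main hΔ⟩

end Pool.Agent.Results.MP_90d181_ag.BoundedPowersCM
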