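import Pool.Agent.X227.UP.Rt

/-!
# The Tate conjecture for `Z × ∏ A_i`, `Z` any abelian variety and `A_i` Jacobians: only finitely many
# factors matter

Let `k` be a number field, or any finitely generated field, and let `W` be the étale cohomology of the
smooth projective varieties over `k`, considered over an algebraic closure, with coefficients in an
algebraic closure of `ℚ_ℓ`, with the action of the Galois group `Γ` (`GaloisData`; `G.χ` is the action on
the Tate twists). `Tate G Y` says that, in all codimensions `j`, every class in `H^(2j)(Y)` on which a
subgroup of finite index acts by `χ ^ j` is a linear combination of classes of algebraic cycles.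

The varieties `A i`. Let `X i` be any family of varieties, which may be infinite, of odd dimension, such
that homological and numerical equivalence coincide on `X i`, the transcendental cohomology `T i` (the
orthogonal complement of all algebraic classes) is concentrated in the middle degree (`OddMiddle`), the
group `Γ` acts irreducibly on the Lie algebra `sp(T i)` of the operators on `T i` which are skew for the
intersection form, some element of `Γ` has two eigenvalues on `T i` whose quotient is not a root of
unity, and these adjoint representations are pairwise not isomorphic (`BigFamily`). Let `A i` be any
varieties such that the motive of `A i` is a direct summand of a sum of Tate twists of the motive of a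
power of `X i`, and the other way round (`SamePowers`). For example `X i` is a curve and `A i` is its
Jacobian variety (or a cubic threefold and its intermediate Jacobian); then `T i = H^1(A i)`, up to a
twist, and the conditions say that the image of the Galois group is open in the group of symplectic
similitudes of `H^1(A i)`, and that the `A i` are pairwise not isogenous. For the Jacobians of most
curves this holds. (Other examples for `A i`: symmetric powers of `X i`, moduli spaces of stable bundles
of coprime rank and degree on a curve `X i`.)

Let `Z` be ANY variety, for example any abelian variety; nothing is supposed about its Galois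
representation. For a set `S` of indices, `generated Z A S` is the class of the varieties
`Z^n × ∏_{i ∈ S} A_i^(n_i)`, `n ≥ 1`. If `Z` and the `A i` are abelian varieties then so are these products.

The theorem: there is ONE finite set `B` of indices such that for EVERY set `S` of indices the Tate
conjecture for all varieties `Z^n × ∏_{i ∈ S} A_i^(n_i)` is equivalent to the Tate conjecture for all
varieties `Z^n × ∏_{i ∈ S ∩ B} A_i^(n_i)`: all the other `A i` can be omitted. So the Tate conjecture for
all products of powers of `Z` and of infinitely many Jacobians `A i` is a question about `Z` and
finitely many of the `A i`.

The set `B` is bounded: `∑_{i ∈ B} dim sp(T i) ≤ b ^ 2` where `b` is the dimension of any sum of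
cohomology groups `H^m(Z)`, `m ∈ S`, which generates the cohomology algebra of `Z` (`GenBound`). If `Z`
is an abelian variety then `b = 2 dim Z`, and if `A i` is the Jacobian of a curve of genus `g i` then
`dim sp(T i) = g i * (2 * g i + 1)`: so `∑_{i ∈ B} g i * (2 * g i + 1) ≤ 4 * (dim Z) ^ 2`, and all `A i`
with `dim A i ≥ √2 * dim Z` can be omitted. Moreover no `i ∈ B` is separated from `Z` by the eigenvalues
of an element of `Γ` (`MonApart`) or by the slopes of a Frobenius element (`SlopeSep`).

The idea of the proof: if the factor `X i` matters for some power of `Z` then `sp(T i)` acts by
derivations of `H(Z^n)` which can be chosen to commute with all endomorphisms of `Z^n`, in particular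
with the permutations of the factors; so they are determined by their restriction to the generators of
the cohomology of one factor `Z`, and these restrictions are linearly independent for the different
`i`. The passage from the `X i` to the `A i` uses that the correspondences which make one motive a
summand of the other can be multiplied with the identity of any variety.
-/

open CategoryTheory AlgebraicGeometry

universe u

namespace Pool.Agent.Results.MP_90d181_ag.FinitelyManyJacobians

open Pool.Agent.H914 Pool.Agent.H914.VarClass Pool.Agent.H914.VarClass.Obj Pool.Agent.Y132.AH
  Pool.Agent.X227.NP Pool.Agent.X227.MM Pool.Agent.X227.UP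

variable {k : Type u} [Field k] {𝒱 : VarClass k} {ops : CycleOps 𝒱}

theorem result (W : WeilCohomology.{u, 0} ops) [IsAlgClosed W.K] {Γ : Type} [Group Γ]
    (G : GaloisData W Γ) {ι : Type} [DecidableEq ι] (X A : ι → 𝒱.Obj)
    (hX : ∀ i, OddMiddle W (X i)) (hG : BigFamily G X) (hA : ∀ i, SamePowers W (A i) (X i))
    (Z : 𝒱.Obj) :
    ∃ B : Finset ι, GenBound W X Z B ∧ (∀ i ∈ B, ¬MonApart G (X i) Z) ∧
      (∀ i ∈ B, ¬SlopeSep G (X i) Z) ∧
      ∀ S : Set ι, (∀ Y ∈ generated Z A S, Tate G Y) ↔
        ∀ Y ∈ generated Z A (S ∩ {i | i ∈ B}), Tate G Y :=
  tate_same G hA Z hX hG

end Pool.Agent.Results.MP_90d181_ag.FinitelyManyJacobians
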