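import Pool.Agent.Results.MP_938ce2_ag.DeterminantClasses
import Pool.Agent.X274.DI.Main
import Pool.Agent.X274.DI.Trans

/-!
# The Tate conjecture for all products of powers of abelian varieties with independent determinants

Let `A_0, ..., A_r` be abelian varieties over a number field `K`. A number field `E_i`, Galois over `ℚ`
(`E_i = ℚ` is allowed), acts on `A_i` up to isogeny, with the adjoints `bar a` (`a ∈ E_i`) for the form
`J_i` of a polarization: either `bar = 1` (`E_i` is totally real) or `E_i` is a CM field and `bar` is the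
complex conjugation. Let `n_i` be the rank of `V_i = H^1(A_i, ℚ_ℓ)` over `E_i ⊗ ℚ_ℓ`. At the places `v` of
good reduction the geometric Frobenius element has the characteristic polynomial `P_{i,v}` on `V_i`, and
its determinant over `E_i ⊗ ℚ_ℓ` is an element `d_{i,v}` of `E_i`.

**Theorem.** Suppose that
(1) for every `i` there is a place `v` such that the roots of `P_{i,v}` are simple and `x / y = z / u` for
roots `x ≠ y`, `z`, `u` only in the trivial cases;
(2) for every `i` the conditions on finitely many polynomials `P_{i,v}` of the definition `EnoughPlaces`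
hold;
(3) for `i ≠ j` there is a place `v` such that the roots of `P_{i,v}` are simple and no quotient of two
different roots of `P_{i,v}` is a quotient of two roots of `P_{j,v}`;
(4) there is a place `v`, with norm `q`, such that a product of conjugates `τ(d_{i,v})` (for the CM fields
`E_i`, all complex embeddings `τ` of `E_i`, repetitions are allowed) is a root of unity times a power of
`q` only if the embeddings `τ` and `τ ∘ bar` of `E_i` occur equally often in it, for all `i` and `τ`.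
Then for all prime numbers `ℓ` outside of a set of natural density zero **every Tate class on every product
of powers of the `A_i`, of any degree, is a linear combination of products of divisor classes**: of the
classes `J_i(a x, y)`, `a ∈ E_i`. In particular the Tate conjecture holds for these `ℓ` and all products of
powers of the `A_i`.

Condition (4) excludes in particular the abelian varieties of Weil type, for which there are exceptional
Tate classes. The theorem is about the `ℓ`-adic representations and holds more generally for motives of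
any weights `w_i`, not all zero (`J_i` is alternating if `E_i` is totally real); for abelian varieties
`w_i = 1`. As in the starting results the representations may come from a compact group `Γ` with a
homomorphism `s` from the Galois group of `K`; the case `Γ = Gal(K̄/K)`, `s = id` is the one of the problem.

The new result `DeterminantClasses` (of the problem `MP_938ce2_ag`) shows under (1), (2) and (3) that the Tate
classes are generated by the `J_i(a x, y)` and the determinants (for abelian varieties: Weil classes);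
it does not decide which combinations of determinants occur. Here the determinants are removed: over
an algebraic closure of `ℚ_ℓ` a product of pairings and determinants of the blocks (the
eigenspaces of `E_i`) is an eigenvector of the Frobenius element of the place in (4); the eigenvalues of
those which occur in Tate classes are roots of unity times powers of `q`, hence the determinants of
dual blocks occur equally often by (4), and the product of the determinants of two dual blocks is a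
determinant of pairings.
-/

set_option autoImplicit false

namespace Pool.Agent.Results.MP_90d181_ag.IndependentDeterminants

open Matrix Polynomial Filter Topology NumberField IsDedekindDomain
open Pool.Agent.Results.MP_938ce2_ag.DeterminantClasses

/-- the determinant over `E ⊗ ℚ_ℓ` of the matrix `G` (an `E ⊗ ℚ_ℓ`-linear endomorphism of `ℚ_ℓ ^ N`, of rank `n`
over `E ⊗ ℚ_ℓ`) is the element `d` of `E`: on the balanced alternating forms in `n` variables, the dual of the
maximal exterior power over `E ⊗ ℚ_ℓ`, the matrix `G` acts as `d` -/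
def HasDeterminant {N : ℕ} (n : ℕ) {ℓ : ℕ} [Fact ℓ.Prime]
    {E : IntermediateField ℚ (AlgebraicClosure ℚ)} (ε : E →+* Matrix (Fin N) (Fin N) ℚ_[ℓ])
    (G : Matrix (Fin N) (Fin N) ℚ_[ℓ]) (d : E) : Prop :=
  ∀ δ : (Fin N → ℚ_[ℓ]) [⋀^Fin n]→ₗ[ℚ_[ℓ]] ℚ_[ℓ], IsBalanced ε δ →
    ∀ (x : Fin n → Fin N → ℚ_[ℓ]) (l : Fin n),
      δ (fun j => G *ᵥ x j) = δ (Function.update x l (ε d *ᵥ x l))

open Classical in
/-- the elements `d i` of the fields `E i` with a nontrivial involution `bar i` are independent: if some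
positive power of a product of values `τ (d i)`, `τ` a complex embedding of such an `E i` (a finite multiset
`T` of pairs `(i, τ)`), is a power of `q`, then `(i, τ)` and `(i, τ ∘ bar)` occur equally often in `T`, for all
`i` and `τ` -/
def AreIndependent {r : ℕ} {E : Fin (r + 1) → IntermediateField ℚ (AlgebraicClosure ℚ)}
    (bar : ∀ i, E i →+* E i) (d : ∀ i, E i) (q : ℕ) : Prop :=
  ∀ (T : Multiset (Σ i, (E i →+* ℂ))) (e : ℕ) (z : ℤ), 0 < e →
    (∀ p ∈ T, ∃ a, bar p.1 a ≠ a) →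
    (T.map fun p => p.2 (d p.1)).prod ^ e = (q : ℂ) ^ z →
    ∀ (i : Fin (r + 1)) (τ : E i →+* ℂ), T.count ⟨i, τ⟩ = T.count ⟨i, τ.comp (bar i)⟩

/-- the function `f` of `k` vectors in the direct sum of the `ℚ_ℓ ^ (N i)` is a product of factors
`J_i(a x, y)`, `a ∈ E i`, in which every one of the variables with an index in the set `A` occurs exactly
once, and the others do not occur. Only the components in `ℚ_ℓ ^ (N i)` of the variables `x`, `y` enter into
such a factor -/
inductive IsPairingProduct {r : ℕ} {N : Fin (r + 1) → ℕ} (ℓ : ℕ) [Fact ℓ.Prime]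
    {E : Fin (r + 1) → IntermediateField ℚ (AlgebraicClosure ℚ)}
    (ε : ∀ i, E i →+* Matrix (Fin (N i)) (Fin (N i)) ℚ_[ℓ])
    (J : ∀ i, Matrix (Fin (N i)) (Fin (N i)) ℚ_[ℓ]) {k : ℕ} :
    Finset (Fin k) → ((Fin k → ∀ i, Fin (N i) → ℚ_[ℓ]) → ℚ_[ℓ]) → Prop
  | one : IsPairingProduct ℓ ε J ∅ fun _ => 1
  | pairing {A : Finset (Fin k)} {f : (Fin k → ∀ i, Fin (N i) → ℚ_[ℓ]) → ℚ_[ℓ]} (i : Fin (r + 1))
      (a : E i) (j j' : Fin k) (hne : j ≠ j') (hj : j ∉ A) (hj' : j' ∉ A)
      (h : IsPairingProduct ℓ ε J A f) :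
      IsPairingProduct ℓ ε J (insert j (insert j' A)) fun v =>
        ((ε i a *ᵥ v j i) ⬝ᵥ J i *ᵥ v j' i) * f v

/-- every Tate class of any degree `k` and twist `m`, that is every multilinear form `φ` in `k` variables
on the direct sum of the `ℚ_ℓ ^ (N i)` which satisfies `φ(σ v) = χ(σ) ^ m φ(v)` for all `σ` in an open
subgroup, is a linear combination of products of pairings `J_i(a x, y)`, in which every variable occurs
exactly once -/
def AllTateClassesFromPairings {Γ : Type} [Group Γ] [TopologicalSpace Γ] {r : ℕ}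
    {N : Fin (r + 1) → ℕ} (ℓ : ℕ) [Fact ℓ.Prime]
    {E : Fin (r + 1) → IntermediateField ℚ (AlgebraicClosure ℚ)}
    (χ : Γ →* ℚ_[ℓ]) (ρ : ∀ i, Γ →* Matrix (Fin (N i)) (Fin (N i)) ℚ_[ℓ])
    (ε : ∀ i, E i →+* Matrix (Fin (N i)) (Fin (N i)) ℚ_[ℓ])
    (J : ∀ i, Matrix (Fin (N i)) (Fin (N i)) ℚ_[ℓ]) : Prop :=
  ∀ (k : ℕ) (m : ℤ) (φ : MultilinearMap ℚ_[ℓ] (fun _ : Fin k => ∀ i, Fin (N i) → ℚ_[ℓ]) ℚ_[ℓ])
    (U : Subgroup Γ), IsOpen (U : Set Γ) →
    (∀ σ ∈ U, ∀ v, φ (fun j i => ρ i σ *ᵥ v j i) = χ σ ^ m * φ v) →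
    (fun v => φ v) ∈ Submodule.span ℚ_[ℓ] {f : (Fin k → ∀ i, Fin (N i) → ℚ_[ℓ]) → ℚ_[ℓ] |
      IsPairingProduct ℓ ε J Finset.univ f}

section aux

variable {r : ℕ} {N n : Fin (r + 1) → ℕ} {ℓ : ℕ} [Fact ℓ.Prime]
  {E : Fin (r + 1) → IntermediateField ℚ (AlgebraicClosure ℚ)} {bar : ∀ i, E i →+* E i}
  {ε : ∀ i, E i →+* Matrix (Fin (N i)) (Fin (N i)) ℚ_[ℓ]}
  {J : ∀ i, Matrix (Fin (N i)) (Fin (N i)) ℚ_[ℓ]} {k : ℕ}

/-- a balanced form is balanced over the algebra of the coefficients -/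
theorem bal_adjoin {N n : ℕ} {E : IntermediateField ℚ (AlgebraicClosure ℚ)}
    {ε : E →+* Matrix (Fin N) (Fin N) ℚ_[ℓ]}
    (hspan : ∀ A ∈ Algebra.adjoin ℚ_[ℓ] (Set.range ε), A ∈ Submodule.span ℚ_[ℓ] (Set.range ε))
    {δ : (Fin N → ℚ_[ℓ]) [⋀^Fin n]→ₗ[ℚ_[ℓ]] ℚ_[ℓ]} (hδ : IsBalanced ε δ)
    {A : Matrix (Fin N) (Fin N) ℚ_[ℓ]} (hA : A ∈ Algebra.adjoin ℚ_[ℓ] (Set.range ε))
    (x : Fin n → Fin N → ℚ_[ℓ]) (l l' : Fin n) :
    δ (Function.update x l (A *ᵥ x l)) = δ (Function.update x l' (A *ᵥ x l')) := by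
  have h1 := hspan A hA
  clear hA
  induction h1 using Submodule.span_induction with
  | mem A hA =>
    obtain ⟨a, rfl⟩ := hA
    exact hδ a x l l'
  | zero =>
    rw [zero_mulVec, zero_mulVec, AlternatingMap.map_update_zero, AlternatingMap.map_update_zero]
  | add A B hA hB h1 h2 =>
    rw [add_mulVec, add_mulVec, AlternatingMap.map_update_add, AlternatingMap.map_update_add,
      h1, h2]
  | smul c A hA h1 =>
    rw [smul_mulVec, smul_mulVec, AlternatingMap.map_update_smul, AlternatingMap.map_update_smul,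
      h1]

theorem prd_of_product
    (hspan : ∀ i, ∀ A ∈ Algebra.adjoin ℚ_[ℓ] (Set.range (ε i)),
      A ∈ Submodule.span ℚ_[ℓ] (Set.range (ε i)))
    (hJ : ∀ i, (∀ a, bar i a = a) → (J i)ᵀ ≠ J i) {A : Finset (Fin k)}
    {f : (Fin k → ∀ i, Fin (N i) → ℚ_[ℓ]) → ℚ_[ℓ]} (hf : IsProduct n ℓ bar ε J A f) :
    X274.DT.Prd
      (X274.DT.PX fun i => X274.DT.PP (J i) (Algebra.adjoin ℚ_[ℓ] (Set.range (ε i))))
      (X274.DT.DX fun i => X274.DT.DD (Algebra.adjoin ℚ_[ℓ] (Set.range (ε i))) (n i)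
        (∃ a, bar i a ≠ a)) A f := by
  induction hf with
  | one => exact X274.DT.Prd.one
  | pairing i a j j' hne hj hj' h ih =>
    have hb : (fun x y : ∀ i, Fin (N i) → ℚ_[ℓ] => (ε i a *ᵥ x i) ⬝ᵥ J i *ᵥ y i) ∈
        X274.DT.PX fun i => X274.DT.PP (J i) (Algebra.adjoin ℚ_[ℓ] (Set.range (ε i))) :=
      ⟨i, fun x y => (ε i a *ᵥ x) ⬝ᵥ J i *ᵥ y,
        ⟨ε i a, Algebra.subset_adjoin ⟨a, rfl⟩, fun _ _ => rfl⟩, rfl⟩
    exact X274.DT.Prd.pair _ hb j j' hne hj hj' ih
  | determinant i hi δ hδ e he h ih =>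
    have hal : ∃ a, bar i a ≠ a := by
      rcases hi with h1 | h1
      · exact h1
      · by_contra h2
        push Not at h2
        exact hJ i h2 h1
    have hb : (fun x : Fin (n i) → ∀ i, Fin (N i) → ℚ_[ℓ] => δ fun l => x l i) ∈
        X274.DT.DX (fun i => X274.DT.DD (Algebra.adjoin ℚ_[ℓ] (Set.range (ε i))) (n i)
          (∃ a, bar i a ≠ a)) (n i) :=
      ⟨i, fun x => δ x, ⟨rfl, hal, δ, fun A hA x l l' => bal_adjoin (hspan i) hδ hA x l l',
        fun _ => rfl⟩, rfl⟩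
    exact X274.DT.Prd.det (n i) _ hb e he ih

theorem product_of_prd {A : Finset (Fin k)} {f : (Fin k → ∀ i, Fin (N i) → ℚ_[ℓ]) → ℚ_[ℓ]}
    (h : X274.DT.Prd {b | ∃ i, ∃ a : E i, b = fun x y => (ε i a *ᵥ x i) ⬝ᵥ J i *ᵥ y i}
      (fun _ => ∅) A f) : IsPairingProduct ℓ ε J A f := by
  induction h with
  | one => exact IsPairingProduct.one
  | @pair A f b hb j j' hne hj hj' hf ih =>
    obtain ⟨i, a, rfl⟩ := hb
    exact IsPairingProduct.pairing i a j j' hne hj hj' ih
  | det m δ hδ e hA hf ih => exact absurd hδ (Set.notMem_empty δ)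

theorem prod_zpow {I Ω : Type} [Field Ω] {a : Ω} (ha : a ≠ 0) (w : I → ℤ) (C : Multiset I) :
    (C.map fun i => a ^ w i).prod = a ^ (C.map w).sum := by
  induction C using Multiset.induction_on with
  | empty => simp
  | cons i C ih =>
    rw [Multiset.map_cons, Multiset.prod_cons, ih, Multiset.map_cons, Multiset.sum_cons,
      zpow_add₀ ha]

end aux

/-- **All Tate classes on all products of powers are combinations of products of pairings,** at 100
percent of the primes `ℓ`, if the determinants are independent. -/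
theorem result (K : Type) [Field K] [NumberField K] (Γ : Type) [Group Γ] [TopologicalSpace Γ]
    [IsTopologicalGroup Γ] [CompactSpace Γ] (s : AbsoluteGaloisGroup K →* Γ) (hs : Continuous s)
    (S : Set (HeightOneSpectrum (𝓞 K))) (hS : S.Finite)
    (r : ℕ) (N n : Fin (r + 1) → ℕ) (w : Fin (r + 1) → ℤ) (hw : ∃ i, w i ≠ 0)
    (P : Fin (r + 1) → HeightOneSpectrum (𝓞 K) → ℚ[X])
    (χ : ∀ (ℓ : ℕ) [Fact ℓ.Prime], Γ →* ℚ_[ℓ])
    (ρ : ∀ (ℓ : ℕ) [Fact ℓ.Prime] (i : Fin (r + 1)), Γ →* Matrix (Fin (N i)) (Fin (N i)) ℚ_[ℓ])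
    (J : ∀ (ℓ : ℕ) [Fact ℓ.Prime] (i : Fin (r + 1)), Matrix (Fin (N i)) (Fin (N i)) ℚ_[ℓ])
    (hρ : ∀ (ℓ : ℕ) [Fact ℓ.Prime], IsMotivicFamily K s N w ℓ (χ ℓ) (ρ ℓ) (J ℓ) S P)
    -- the coefficients
    (E : Fin (r + 1) → IntermediateField ℚ (AlgebraicClosure ℚ)) [∀ i, FiniteDimensional ℚ (E i)]
    [∀ i, Normal ℚ (E i)] (bar : ∀ i, E i →+* E i)
    (hJ : ∀ (ℓ : ℕ) [Fact ℓ.Prime] (i : Fin (r + 1)), (∀ a, bar i a = a) → (J ℓ i)ᵀ = -J ℓ i)
    (hn : ∀ i, 0 < n i) (hN : ∀ i, N i = n i * Module.finrank ℚ (E i))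
    (ε : ∀ (ℓ : ℕ) [Fact ℓ.Prime] (i : Fin (r + 1)),
      E i →+* Matrix (Fin (N i)) (Fin (N i)) ℚ_[ℓ])
    (hε : ∀ (ℓ : ℕ) [Fact ℓ.Prime] (i : Fin (r + 1)),
      IsCoefficientAction (E i) (bar i) (n i) (ρ ℓ i) (ε ℓ i) (J ℓ i))
    -- the places
    (hgen : ∀ i, ∃ v, IsGenericPlace S (P i) (w i) v)
    (hplaces : ∀ i, EnoughPlaces (E i) (n i) (N i) S (P i))
    (hind : ∀ i j, i ≠ j → IsIndependent S (P i) (P j))
    -- the determinants
    (v : HeightOneSpectrum (𝓞 K)) (hv : v ∉ S) (d : ∀ i, E i)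
    (hd : ∀ (ℓ : ℕ) [Fact ℓ.Prime], (ℓ : 𝓞 K) ∉ v.asIdeal →
      ∀ σ : AbsoluteGaloisGroup K, IsFrobenius v σ → ∀ i, (∃ a, bar i a ≠ a) →
        HasDeterminant (n i) (ε ℓ i) (ρ ℓ i (s σ⁻¹)) (d i))
    (hdi : AreIndependent bar d (Ideal.absNorm v.asIdeal)) :
    HasDensityZero {ℓ | ∃ _ : Fact ℓ.Prime,
      ¬ AllTateClassesFromPairings ℓ (χ ℓ) (ρ ℓ) (ε ℓ) (J ℓ)} := by
  classical
  have hCOEF : Y142.SU.S_COEF := Y154.SU.t_COEF
  have hres := MP_938ce2_ag.DeterminantClasses.result K Γ s hs S hS r N n w P χ ρ J hρ E bar hn hN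
    ε hε hgen hplaces hind
  have hbig : Y142.ZI.DensityZero {ℓ : ℕ | ℓ ≤ Ideal.absNorm v.asIdeal} :=
    X274.TH.density_finite _
  refine Y142.ZI.DensityZero.mono (hbig.union hres) ?_
  rintro ℓ ⟨hp, hno⟩
  by_contra hnot
  rw [Set.mem_union, not_or] at hnot
  obtain ⟨hb, hgen'⟩ := hnot
  have hall : AllTateClassesGenerated n w ℓ bar (χ ℓ) (ρ ℓ) (ε ℓ) (J ℓ) := by
    by_contra h
    exact hgen' ⟨hp, h⟩
  have hvℓ : (ℓ : 𝓞 K) ∉ v.asIdeal :=
    Y142.ZO.not_mem_of_lt v hp.out (by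
      by_contra h
      exact hb (show ℓ ≤ _ by omega))
  refine hno fun k m φ U hU hφ => ?_
  have h1 := hall.2 hw k m φ U hU hφ
  -- the algebras of the coefficients
  let C : ∀ i, Subalgebra ℚ_[ℓ] (Matrix (Fin (N i)) (Fin (N i)) ℚ_[ℓ]) := fun i =>
    Algebra.adjoin ℚ_[ℓ] (Set.range (ε ℓ i))
  have hco := fun i => hCOEF ℓ (N i) (n i) (E i) inferInstance (hn i) (ε ℓ i) (hε ℓ i).2.2
  have hJ0 : ∀ i, (∀ a, bar i a = a) → (J ℓ i)ᵀ ≠ J ℓ i := by
    intro i hi h
    rw [hJ ℓ i hi] at h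
    have h2 : J ℓ i = 0 := by
      ext a b
      have h3 := congrFun (congrFun h a) b
      rw [Matrix.neg_apply] at h3
      have h4 : (2 : ℚ_[ℓ]) * J ℓ i a b = 0 := by linear_combination -h3
      exact (mul_eq_zero.1 h4).resolve_left two_ne_zero
    have hNpos : 0 < N i := by
      rw [hN]
      exact Nat.mul_pos (hn i) Module.finrank_pos
    have : Nonempty (Fin (N i)) := ⟨⟨0, hNpos⟩⟩
    have h3 := ((hρ ℓ).2.1 i).2.2.1
    rw [h2, Matrix.det_zero] at h3
    exact h3 rfl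
  have h2 : (fun v => φ v) ∈ X274.DT.prdSpan (X274.DT.PX fun i => X274.DT.PP (J ℓ i) (C i))
      (X274.DT.DX fun i => X274.DT.DD (C i) (n i) (∃ a, bar i a ≠ a))
      (Finset.univ : Finset (Fin k)) := by
    refine Submodule.span_mono ?_ h1
    intro f hf
    exact prd_of_product (fun i => (hco i).2.2.1) hJ0 hf
  -- the Frobenius element
  obtain ⟨σ₀, hσ₀⟩ := Pool.Agent.W401.Frob.exists_frob v
  have hfr := (hρ ℓ).2.2 v hv hvℓ σ₀ hσ₀
  set q := Ideal.absNorm v.asIdeal with hqdef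
  have hq0 : q ≠ 0 := by
    rw [hqdef, Ne, Ideal.absNorm_eq_zero_iff]
    exact v.ne_bot
  have hfin : U.FiniteIndex := by
    have : Finite (Γ ⧸ U) := Subgroup.quotient_finite_of_isOpen U hU
    exact Subgroup.finiteIndex_of_finite_quotient
  obtain ⟨e, he, -, heU⟩ := Subgroup.exists_pow_mem_of_index_ne_zero hfin.index_ne_zero (s σ₀⁻¹)
  have hit : ∀ (e : ℕ) (x : ∀ i, Fin (N i) → ℚ_[ℓ]),
      (fun x i => ρ ℓ i (s σ₀⁻¹) *ᵥ x i)^[e] x = fun i => ρ ℓ i (s σ₀⁻¹ ^ e) *ᵥ x i := by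
    intro e
    induction e with
    | zero => intro x; simp
    | succ e ih =>
      intro x
      rw [Function.iterate_succ_apply, ih]
      funext i
      rw [mulVec_mulVec, ← map_mul, ← pow_succ]
  have hC : ∀ i, ∀ A ∈ C i, ∀ γ, A * ρ ℓ i γ = ρ ℓ i γ * A := by
    intro i A hA γ
    induction hA using Algebra.adjoin_induction with
    | mem x hx =>
      obtain ⟨a, rfl⟩ := hx
      exact (hε ℓ i).1 a γ
    | algebraMap r => exact Algebra.commutes r _
    | add x y _ _ hx hy => rw [add_mul, mul_add, hx, hy]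
    | mul x y _ _ hx hy => rw [mul_assoc, hy, ← mul_assoc, hx, mul_assoc]
  have h3 := X274.DI.only_pairings (Ω := AlgebraicClosure ℚ_[ℓ]) (J := J ℓ) (𝒞 := C)
    (al := fun i => ∃ a, bar i a ≠ a) (n := n) hn (fun i => ((hρ ℓ).2.1 i).2.2.1)
    (fun i => (hco i).1) (fun i => (hco i).2.1) (fun i => (hco i).2.2.2)
    (fun i hi => Y142.SU.herm_of ((hρ ℓ).2.1 i).2.1 ((hρ ℓ).2.1 i).2.2.1 (ε ℓ i) (hco i).1
      (bar i) hi (hε ℓ i).2.1) (ε ℓ) (fun i a => Algebra.subset_adjoin ⟨a, rfl⟩)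
    (fun i => (hco i).2.2.1) bar (fun i => (hε ℓ i).2.1) (fun i => ρ ℓ i (s σ₀⁻¹))
    (fun i A hA => hC i A hA _) (fun i => (q : ℚ_[ℓ]) ^ w i) (fun i => by
      have h := ((hρ ℓ).2.1 i).2.2.2 (s σ₀⁻¹)
      rw [hfr.1] at h
      exact h) d (fun i hi ω hω x l => hd ℓ hvℓ σ₀ hσ₀ i hi ω
        (fun a x l l' => hω _ (Algebra.subset_adjoin ⟨a, rfl⟩) x l l') x l) e
    (((q : ℚ_[ℓ]) ^ e) ^ m) ?_ h2 ?_
  · -- the explicit form
    refine Submodule.span_le.2 ?_ h3
    intro f hf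
    have h4 := X274.DT.prd_span (P' := {b | ∃ i, ∃ a : E i, b = fun x y =>
        (ε ℓ i a *ᵥ x i) ⬝ᵥ J ℓ i *ᵥ y i}) (D' := fun _ => ∅) ?_
      (fun m δ hδ => absurd hδ (Set.notMem_empty δ)) hf
    · refine Submodule.span_mono ?_ h4
      intro g hg
      exact product_of_prd hg
    · rintro b ⟨i, b', ⟨a, ha, hab⟩, rfl⟩
      exact pair_span (ε ℓ) (J ℓ) i ((hco i).2.2.1 a ha) hab
  · -- the eigenvalues
    intro T C' hT hTe i τ τ' hτ inst
    have hqΩ : (q : AlgebraicClosure ℚ_[ℓ]) ≠ 0 := Nat.cast_ne_zero.2 hq0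
    have h4 : (T.map fun p => p.2 (d p.1)).prod ^ e =
        (q : AlgebraicClosure ℚ_[ℓ]) ^ ((e : ℤ) * m - (C'.map w).sum * e) := by
      have h5 : (C'.map fun i => algebraMap ℚ_[ℓ] (AlgebraicClosure ℚ_[ℓ])
          ((q : ℚ_[ℓ]) ^ w i)).prod = (q : AlgebraicClosure ℚ_[ℓ]) ^ (C'.map w).sum := by
        rw [← prod_zpow hqΩ]
        congr 1
        refine Multiset.map_congr rfl fun i _ => ?_
        rw [map_zpow₀, map_natCast]
      rw [h5, mul_pow, map_zpow₀, map_pow, map_natCast, ← _root_.zpow_natCast ((q :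
        AlgebraicClosure ℚ_[ℓ]) ^ (C'.map w).sum), ← _root_.zpow_mul, ← _root_.zpow_natCast
        (q : AlgebraicClosure ℚ_[ℓ]) e, ← _root_.zpow_mul] at hTe
      rw [zpow_sub₀ hqΩ, ← hTe, mul_div_assoc, div_self (zpow_ne_zero _ hqΩ), mul_one]
    have h5 := hdi (T.map X274.DI.toP) e _ he (fun p hp => by
      obtain ⟨p', hp', rfl⟩ := Multiset.mem_map.1 hp
      exact hT p' hp') (X274.DI.prod_toC d T q e _ h4) i (X274.DI.toC τ)
    have h6 : ∀ p : Σ i, (E i →+* AlgebraicClosure ℚ_[ℓ]),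
        (T.map X274.DI.toP).count (X274.DI.toP p) = T.count p := by
      intro p
      convert Multiset.count_map_eq_count' X274.DI.toP T X274.DI.toP_inj p
    rw [← h6, ← h6, hτ]
    exact h5
  · -- the Tate class
    intro v
    have h4 : (fun j => (fun (x : ∀ i, Fin (N i) → ℚ_[ℓ]) i => ρ ℓ i (s σ₀⁻¹) *ᵥ x i)^[e] (v j)) =
        fun j i => ρ ℓ i (s σ₀⁻¹ ^ e) *ᵥ v j i := by
      funext j
      rw [hit]
    show φ _ = _
    rw [h4, hφ _ heU v, map_pow, hfr.1]

end Pool.Agent.Results.MP_90d181_ag.IndependentDeterminants
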