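import Pool.Agent.X297.OC.Main

/-!
# The Tate conjecture for the powers of a potentially CM abelian variety: all, or (almost) at most
# half of the Tate classes are algebraic

Let `A` be an abelian variety of dimension `g` over a number field which has complex multiplication
over a finite extension, simple or not, let `b` be the total Betti number (so `b = 4 ^ g`), and put
`N = max 2 (g ^ (g + 2))`. For `n ≥ 0` let `t n` be the dimension of the space of all Tate classes (of
all codimensions) on the product `A ^ (n + 1)` of `n + 1` copies of `A`, and let `r n` be the rank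
of the group of all algebraic cycles on it modulo numerical equivalence (so `r n ≤ t n`).

Either the Tate conjecture holds for all powers of `A` (and homological and numerical equivalence
agree on all powers), or for all `n`

`t n ≥ (2 - ε n) r n`,  `ε n = 4 (N + 3) b ^ (N + 5) log (n + 2) / (n + 1)`.

In particular, for every single `n` with `n + 1 ≥ 256 (N + 3) ^ 2 b ^ (2 N + 10)`, the Tate
conjecture holds for all powers of `A` if and only if `t n < (3 / 2) r n`: if more than two thirds of
the Tate classes on this one power are algebraic, then all Tate classes on all powers are.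

More generally this is shown for any smooth projective variety `Y` over a number field whose `ℓ`-adic
cohomology algebra (with coefficients `ℚ̄_ℓ`) is generated by `f` homogeneous eigenvectors of the
Galois group of a finite extension, with Hodge-Tate characters whose weights `a` in degree `i` satisfy
`|2 a - i| ≤ c`, with `N = f ^ 2 (f max(c, 1)) ^ f`.

The proof: a relation between the weights is a sum of relations with at most `N` terms, so that
the Tate classes on all powers are generated by those on `Y, Y ^ 2, …, Y ^ N`; and a nonalgebraic Tate
class on one of these powers cuts out a piece of the motive of that power which contributes to the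
Tate classes on `Y ^ (n + 1)` almost as many nonalgebraic classes as there are algebraic ones.
-/

open CategoryTheory AlgebraicGeometry

universe u v w

namespace Pool.Agent.Results.MP_90d181_ag.OneInequalityCM

open Pool.Agent.H914 Pool.Agent.H914.VarClass Pool.Agent.H914.VarClass.Obj
  Pool.Agent.H914.WeilCohomology Pool.Agent.X297.TIL Pool.Agent.X297.GT Pool.Agent.X297.BT
open Pool.Agent.Y129 (pw cycRank)

variable {k : Type u} [Field k] {𝒱 : VarClass k} {ops : CycleOps 𝒱}
  {W : WeilCohomology.{u, v} ops} {Y : 𝒱.Obj} {Γ : Type w} [Group Γ] {χ : Γ →* W.Kˣ}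

/-- The Tate conjecture holds for all powers of `Y`, and homological and numerical equivalence agree
on all powers of `Y`. -/
def TateForAllPowers (G : GaloisPowers W Y Γ χ) : Prop :=
  ∀ m, G.TateFor m ∧ HomEqNum W (pw Y m)

/-- The number `ε n`. -/
noncomputable def eps (b N n : ℕ) : ℝ :=
  4 * (N + 3) * (b : ℝ) ^ (N + 5) * Real.log (n + 2) / (n + 1)

/-- The Tate conjecture holds for all powers of `Y`, or for all `n` the Tate classes on `Y ^ (n + 1)`
are almost twice as many as the algebraic ones; in particular one inequality decides. -/
def AllOrHalf (G : GaloisPowers W Y Γ χ) (N : ℕ) : Prop :=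
  (TateForAllPowers G ∨ ∀ n,
    (2 - eps (Module.finrank W.K (W.H Y)) N n) * cycRank ops (pw Y n) ≤ G.tateDim n) ∧
  ∀ n, 256 * (N + 3) ^ 2 * Module.finrank W.K (W.H Y) ^ (2 * N + 10) ≤ n + 1 →
    (TateForAllPowers G ↔ 2 * G.tateDim n < 3 * cycRank ops (pw Y n))

theorem result [Nontrivial (W.H Y)] (G : GaloisPowers W Y Γ χ) (Δ : Subgroup Γ)
    (hΔ : Δ.FiniteIndex) {S : Type} [Nonempty S] (H : WeightSystem (χ.comp Δ.subtype) S) :
    (∀ g, IsCMAbelian (A := W.H Y) H (W.gr Y) (G.act 0) g →
      AllOrHalf G (max 2 (g ^ (g + 2)))) ∧
    (∀ f c, IsGeneratedBy (A := W.H Y) H (W.gr Y) (G.act 0) f c →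
      AllOrHalf G (powersBound f c)) :=
  ⟨fun _ h => Pool.Agent.X297.OC.dich (Pool.Agent.X297.OC.toric_of_ab hΔ h)
      fun hT n => main_ab hΔ h hT n,
    fun f c h => Pool.Agent.X297.OC.dich (Pool.Agent.X297.OC.toric_of_gen hΔ h)
      ((Pool.Agent.X297.BT.main hΔ).1 f c h)⟩

end Pool.Agent.Results.MP_90d181_ag.OneInequalityCM
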